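import Mathlib
import Pool.Agent.H354R2.Pratt

/-! Numbers with almost maximal digit sum, and a Fermat test for compositeness. -/

namespace Pool.Agent.T88R

open Pool.Agent.H354R2

/-- the sum of the decimal digits -/
def ds (n : ℕ) : ℕ := (Nat.digits 10 n).sum

lemma ds_step (q : ℕ) : ds q = q % 10 + ds (q / 10) := by
  rcases Nat.eq_zero_or_pos q with h | h
  · subst h; simp [ds]
  · unfold ds
    rw [Nat.digits_def' (by norm_num) h, List.sum_cons]

lemma ds_max : ∀ m q : ℕ, q < 10 ^ m → ds q ≤ 9 * m ∧ (ds q = 9 * m → q + 1 = 10 ^ m) ∧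
    (ds q + 1 = 9 * m → ∃ j < m, q + 1 + 10 ^ j = 10 ^ m) := by
  intro m
  induction m with
  | zero =>
    intro q hq
    have : q = 0 := by simpa using hq
    subst this
    simp [ds]
  | succ m ih =>
    intro q hq
    have hq' : q / 10 < 10 ^ m := by
      rw [pow_succ] at hq
      omega
    obtain ⟨h1, h2, h3⟩ := ih (q / 10) hq'
    have hst := ds_step q
    have hpow : 10 ^ (m + 1) = 10 * 10 ^ m := by rw [pow_succ]; ring
    have hmod := Nat.mod_add_div q 10
    have hlt : q % 10 < 10 := Nat.mod_lt _ (by norm_num)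
    refine ⟨by omega, ?_, ?_⟩
    · intro h
      have ha : ds (q / 10) = 9 * m := by omega
      have hb := h2 ha
      omega
    · intro h
      rcases Nat.lt_or_ge (ds (q / 10)) (9 * m) with hc | hc
      · have ha : ds (q / 10) + 1 = 9 * m := by omega
        obtain ⟨j, hj, hj2⟩ := h3 ha
        refine ⟨j + 1, by omega, ?_⟩
        have hp2 : 10 ^ (j + 1) = 10 * 10 ^ j := by rw [pow_succ]; ring
        omega
      · have ha : ds (q / 10) = 9 * m := by omega
        have hb := h2 ha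
        refine ⟨0, by omega, ?_⟩
        have : (10 : ℕ) ^ 0 = 1 := pow_zero _
        omega

/-- the Fermat test with base `2` -/
def fermat (fuel q : ℕ) : Bool :=
  decide (2 < q) && decide (q < 2 ^ fuel) && decide (powMod q fuel 2 (q - 1) 1 % q ≠ 1)

lemma not_prime_of_fermat {fuel q : ℕ} (h : fermat fuel q = true) : ¬ q.Prime := by
  simp only [fermat, Bool.and_eq_true, decide_eq_true_eq] at h
  obtain ⟨⟨h2, hlt⟩, hne⟩ := h
  intro hq
  apply hne
  have : Fact q.Prime := ⟨hq⟩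
  have h20 : (2 : ZMod q) ≠ 0 := by
    intro h0
    have h1 : ((2 : ℕ) : ZMod q) = 0 := by exact_mod_cast h0
    rw [ZMod.natCast_eq_zero_iff] at h1
    have := Nat.le_of_dvd (by norm_num) h1
    omega
  have h3 := ZMod.pow_card_sub_one_eq_one h20
  have h4 := powMod_spec q fuel 2 (q - 1) 1 (by omega)
  have h5 : ((powMod q fuel 2 (q - 1) 1 : ℕ) : ZMod q) = ((1 : ℕ) : ZMod q) := by
    rw [h4]
    push_cast
    rw [one_mul]
    exact h3
  rw [ZMod.natCast_eq_natCast_iff] at h5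
  have h6 : powMod q fuel 2 (q - 1) 1 % q = 1 % q := h5
  rw [h6]
  exact Nat.mod_eq_of_lt (by omega)

/-- `p` is the least prime with digit sum `k` -/
def IsRho (k p : ℕ) : Prop :=
  p.Prime ∧ ds p = k ∧ ∀ q : ℕ, q.Prime → ds q = k → p ≤ q

lemma isRho_of (m j₀ : ℕ) (hm : j₀ < m) (hp : (10 ^ m - 1 - 10 ^ j₀).Prime)
    (hds : ds (10 ^ m - 1 - 10 ^ j₀) + 1 = 9 * m)
    (hc : ∀ j, j₀ < j → j < m → ¬ (10 ^ m - 1 - 10 ^ j).Prime) :
    IsRho (9 * m - 1) (10 ^ m - 1 - 10 ^ j₀) := by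
  refine ⟨hp, by omega, ?_⟩
  intro q hq hqs
  by_contra hlt
  rw [not_le] at hlt
  have he : 0 < 10 ^ j₀ := by positivity
  have hq1 : q < 10 ^ m := lt_of_lt_of_le hlt (by omega)
  obtain ⟨j, hj, hj2⟩ := (ds_max m q hq1).2.2 (by omega)
  have he2 : 0 < 10 ^ j := by positivity
  have hqe : q = 10 ^ m - 1 - 10 ^ j := by omega
  have hlow : (10 : ℕ) ^ j₀ < 10 ^ j := by omega
  have hjj : j₀ < j := (Nat.pow_lt_pow_iff_right (by norm_num)).1 hlow
  exact hc j hjj hj (hqe ▸ hq)

end Pool.Agent.T88R
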