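import Mathlib

/-! The `N + 1` primality test of Morrison: certificates checked by kernel computation
in the quadratic ring `ℤ[√D]` modulo `N`. -/

namespace Pool.Agent.T88R

/-- multiplication of `x.1 + x.2 √D` and `y.1 + y.2 √D` modulo `N` -/
def mulQ (D N : ℕ) (x y : ℕ × ℕ) : ℕ × ℕ :=
  ((x.1 * y.1 + D * (x.2 * y.2)) % N, (x.1 * y.2 + x.2 * y.1) % N)

/-- binary powering; `fuel` bounds the number of binary digits of the exponent -/
def powQ (D N : ℕ) : ℕ → ℕ × ℕ → ℕ → ℕ × ℕ → ℕ × ℕ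
  | 0, _, _, acc => acc
  | fuel + 1, x, e, acc =>
      powQ D N fuel (mulQ D N x x) (e / 2) (if e % 2 = 1 then mulQ D N acc x else acc)

section field

variable {K : Type*} [Field K] {N D : ℕ} {s : K}

lemma cast_mod_eq (hN : (N : K) = 0) (x : ℕ) : ((x % N : ℕ) : K) = (x : K) := by
  conv_rhs => rw [← Nat.mod_add_div x N]
  push_cast
  rw [hN]; ring

lemma mulQ_spec (hN : (N : K) = 0) (hs : s * s = (D : K)) (x y : ℕ × ℕ) :
    ((mulQ D N x y).1 : K) + ((mulQ D N x y).2 : K) * s =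
      ((x.1 : K) + (x.2 : K) * s) * ((y.1 : K) + (y.2 : K) * s) := by
  simp only [mulQ]
  rw [cast_mod_eq hN, cast_mod_eq hN]
  push_cast
  linear_combination (-(x.2 : K) * y.2) * hs

lemma powQ_spec (hN : (N : K) = 0) (hs : s * s = (D : K)) :
    ∀ (fuel : ℕ) (x : ℕ × ℕ) (e : ℕ) (acc : ℕ × ℕ), e < 2 ^ fuel →
      ((powQ D N fuel x e acc).1 : K) + ((powQ D N fuel x e acc).2 : K) * s =
        ((acc.1 : K) + (acc.2 : K) * s) * ((x.1 : K) + (x.2 : K) * s) ^ e := by
  intro fuel
  induction fuel with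
  | zero =>
    intro x e acc he
    have : e = 0 := by simpa using he
    subst this
    simp [powQ]
  | succ fuel ih =>
    intro x e acc he
    have he2 : e / 2 < 2 ^ fuel := by
      rw [pow_succ] at he
      omega
    rw [powQ, ih _ _ _ he2, mulQ_spec hN hs, ← pow_two, ← pow_mul]
    by_cases h : e % 2 = 1
    · rw [if_pos h, mulQ_spec hN hs]
      have h2 : e = 2 * (e / 2) + 1 := by omega
      conv_rhs => rw [h2, pow_succ]
      ring
    · rw [if_neg h]
      have h2 : e = 2 * (e / 2) := by omega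
      conv_rhs => rw [h2]

end field

/-- the check for one prime `q` -/
def qCheck (N D a b fuel q : ℕ) : Bool :=
  ((powQ D N fuel (a, b) (N + 1) (1, 0)).2 % N == 0) &&
    (Nat.gcd (powQ D N fuel (a, b) ((N + 1) / q) (1, 0)).2 N == 1)

/-- a prime power dividing `M` divides the order of an element whose order divides `M` but
not `M / q` -/
lemma pow_dvd_of_order {o M q e : ℕ} (hq : q.Prime) (h1 : o ∣ M)
    (h2 : ¬ o ∣ M / q) (he : q ^ e ∣ M) : q ^ e ∣ o := by
  obtain ⟨t, ht⟩ := h1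
  have hqt : ¬ q ∣ t := by
    rintro ⟨r, hr⟩
    apply h2
    refine ⟨r, ?_⟩
    rw [ht, hr]
    have : o * (q * r) = q * (o * r) := by ring
    rw [this, Nat.mul_div_cancel_left _ hq.pos]
  have hc : Nat.Coprime (q ^ e) t := Nat.Coprime.pow_left _ ((Nat.Prime.coprime_iff_not_dvd hq).2 hqt)
  rw [ht] at he
  exact hc.dvd_of_dvd_mul_right he

theorem dvd_sign (N D a b fuel p : ℕ) [hp : Fact p.Prime] (hpN : p ∣ N) (hDN : Nat.Coprime D N)
    (h2N : Nat.Coprime 2 N) (hDlt : D ≤ N) (hab : Nat.Coprime (a * a + (N - D) * (b * b)) N)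
    (hfuel : N + 1 < 2 ^ fuel) :
    ∃ ε : ℕ, (ε = p - 1 ∨ ε = p + 1) ∧ ∀ q e : ℕ, q.Prime → q ∣ N + 1 → q ^ e ∣ N + 1 →
      qCheck N D a b fuel q = true → q ^ e ∣ ε := by
  classical
  let K := AlgebraicClosure (ZMod p)
  have : CharP K p := inferInstance
  have hNK : (N : K) = 0 := (CharP.cast_eq_zero_iff K p N).2 hpN
  have hcop : ∀ x : ℕ, Nat.Coprime x N → (x : K) ≠ 0 := by
    intro x hx h0
    have : p ∣ x := (CharP.cast_eq_zero_iff K p x).1 h0
    have h1 : p ∣ 1 := by
      rw [← hx]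
      exact Nat.dvd_gcd this hpN
    exact hp.out.one_lt.ne' (Nat.dvd_one.1 h1)
  obtain ⟨s, hs⟩ := IsAlgClosed.exists_eq_mul_self (D : K)
  have hs' : s * s = (D : K) := hs.symm
  have hsn : (-s) * (-s) = (D : K) := by rw [neg_mul_neg]; exact hs'
  have hDK : (D : K) ≠ 0 := hcop D hDN
  have h2K : (2 : K) ≠ 0 := by
    have := hcop 2 h2N
    simpa using this
  have hs0 : s ≠ 0 := by
    intro h
    rw [h, mul_zero] at hs'
    exact hDK hs'.symm
  set x : K := (a : K) + (b : K) * s with hx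
  set y : K := (a : K) + (b : K) * (-s) with hy
  have hxy : x * y ≠ 0 := by
    have h1 := hcop _ hab
    have h2 : ((a * a + (N - D) * (b * b) : ℕ) : K) = x * y := by
      rw [Nat.cast_add, Nat.cast_mul, Nat.cast_mul, Nat.cast_mul, Nat.cast_sub hDlt, hNK, hx, hy]
      linear_combination ((b : K) * b) * hs'
    rwa [h2] at h1
  have hx0 : x ≠ 0 := left_ne_zero_of_mul hxy
  have hy0 : y ≠ 0 := right_ne_zero_of_mul hxy
  set α : K := x / y with hα
  have hα0 : α ≠ 0 := div_ne_zero hx0 hy0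
  -- powers of alpha
  have hpow : ∀ k : ℕ, k < 2 ^ fuel →
      (α ^ k = 1 ↔ (((powQ D N fuel (a, b) k (1, 0)).2 : ℕ) : K) = 0) := by
    intro k hk
    have e1 := powQ_spec hNK hs' fuel (a, b) k (1, 0) hk
    have e2 := powQ_spec hNK hsn fuel (a, b) k (1, 0) hk
    simp only [Nat.cast_one, Nat.cast_zero, zero_mul, add_zero, one_mul] at e1 e2
    rw [← hx] at e1
    rw [← hy] at e2
    rw [hα, div_pow, div_eq_one_iff_eq (pow_ne_zero _ hy0), ← e1, ← e2]
    constructor
    · intro h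
      have h3 : (2 : K) * ((((powQ D N fuel (a, b) k (1, 0)).2 : ℕ) : K) * s) = 0 := by
        linear_combination h
      rcases mul_eq_zero.1 h3 with h4 | h4
      · exact absurd h4 h2K
      · rcases mul_eq_zero.1 h4 with h5 | h5
        · exact h5
        · exact absurd h5 hs0
    · intro h
      rw [h]; ring
  -- Frobenius
  have hsp : s ^ p = s ∨ s ^ p = -s := by
    have h1 : (s ^ p) * (s ^ p) = s * s := by
      rw [← mul_pow, hs']
      have := map_natCast (frobenius K p) D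
      rwa [frobenius_def] at this
    have h2 : (s ^ p - s) * (s ^ p + s) = 0 := by linear_combination h1
    rcases mul_eq_zero.1 h2 with h | h
    · exact Or.inl (sub_eq_zero.1 h)
    · exact Or.inr (eq_neg_of_add_eq_zero_left h)
  have hfr : ∀ r : K, ((a : K) + (b : K) * r) ^ p = (a : K) + (b : K) * r ^ p := by
    intro r
    have h1 := map_add (frobenius K p) (a : K) ((b : K) * r)
    rw [map_mul, map_natCast, map_natCast, frobenius_def, frobenius_def] at h1
    exact h1
  have hfin : ∀ ε : ℕ, α ^ ε = 1 → ∀ q e : ℕ, q.Prime → q ∣ N + 1 → q ^ e ∣ N + 1 →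
      qCheck N D a b fuel q = true → q ^ e ∣ ε := by
    intro ε hε q e hq hqN heN hch
    simp only [qCheck, Bool.and_eq_true, beq_iff_eq] at hch
    obtain ⟨hc1, hc2⟩ := hch
    have hlt2 : (N + 1) / q < 2 ^ fuel := lt_of_le_of_lt (Nat.div_le_self _ _) hfuel
    have o1 : orderOf α ∣ N + 1 := by
      rw [orderOf_dvd_iff_pow_eq_one, hpow _ hfuel]
      have : N ∣ (powQ D N fuel (a, b) (N + 1) (1, 0)).2 := Nat.dvd_of_mod_eq_zero hc1
      exact (CharP.cast_eq_zero_iff K p _).2 (hpN.trans this)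
    have o2 : ¬ orderOf α ∣ (N + 1) / q := by
      rw [orderOf_dvd_iff_pow_eq_one, hpow _ hlt2]
      exact hcop _ hc2
    exact (pow_dvd_of_order hq o1 o2 heN).trans
      (orderOf_dvd_of_pow_eq_one hε)
  rcases hsp with hsp | hsp
  · refine ⟨p - 1, Or.inl rfl, hfin _ ?_⟩
    have hαp : α ^ p = α := by
      rw [hα, div_pow, hx, hy, hfr, hfr, hsp]
      congr 2
      have : (-s) ^ p = -s := by
        have h1 := map_neg (frobenius K p) s
        rw [frobenius_def, frobenius_def, hsp] at h1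
        exact h1
      rw [this]
    have h1 : α ^ (p - 1) * α = 1 * α := by
      rw [← pow_succ, Nat.sub_add_cancel hp.out.one_lt.le, hαp, one_mul]
    exact mul_right_cancel₀ hα0 h1
  · refine ⟨p + 1, Or.inr rfl, hfin _ ?_⟩
    have h1 : (-s) ^ p = s := by
      have h1 := map_neg (frobenius K p) s
      rw [frobenius_def, frobenius_def, hsp, neg_neg] at h1
      exact h1
    have hxp : x ^ p = y := by rw [hx, hy, hfr, hsp]
    have hyp : y ^ p = x := by rw [hx, hy, hfr, h1]
    rw [pow_succ, hα, div_pow, hxp, hyp, div_mul_div_comm, mul_comm y x, div_self]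
    exact mul_ne_zero hx0 hy0

/-- **Morrison's test.** -/
theorem morrison (N D a b fuel F : ℕ) (hN : 1 < N) (hDN : Nat.Coprime D N)
    (h2N : Nat.Coprime 2 N) (hDlt : D ≤ N) (hab : Nat.Coprime (a * a + (N - D) * (b * b)) N)
    (hfuel : N + 1 < 2 ^ fuel)
    (hF : ∀ ε : ℕ, (∀ q e : ℕ, q.Prime → q ∣ N + 1 → q ^ e ∣ N + 1 →
      qCheck N D a b fuel q = true → q ^ e ∣ ε) → F ∣ ε)
    (hlarge : N < (F - 1) * (F - 1)) : N.Prime := by
  by_contra hnp
  have hp : (N.minFac).Prime := Nat.minFac_prime (by omega)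
  have : Fact (N.minFac).Prime := ⟨hp⟩
  obtain ⟨ε, hε, h⟩ := dvd_sign N D a b fuel N.minFac (Nat.minFac_dvd N) hDN h2N hDlt hab hfuel
  have hd : F ∣ ε := hF ε h
  have h2 : 2 ≤ N.minFac := hp.two_le
  have hpos : 0 < ε := by rcases hε with h | h <;> omega
  have hle : F ≤ ε := Nat.le_of_dvd hpos hd
  have hle2 : F - 1 ≤ N.minFac := by rcases hε with h | h <;> omega
  have hsq : N.minFac ^ 2 ≤ N := Nat.minFac_sq_le_self (by omega) hnp
  have : (F - 1) * (F - 1) ≤ N.minFac * N.minFac := Nat.mul_le_mul hle2 hle2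
  rw [pow_two] at hsq
  omega

end Pool.Agent.T88R
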