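import Mathlib
import Pool.Agent.T88R.Digits
import Pool.Agent.T88R.Morrison

/-! Prime certificates and computations for the least primes with digit sums `260` and `1286`. -/

namespace Pool.Agent.T88R

open Pool.Agent.H354R2

set_option maxRecDepth 100000

lemma prime_0 : Nat.Prime 1146452683 := by
  apply pratt 1146452683 5 32 [2, 3, 5939, 32173]
  · intro q hq
    simp only [List.mem_cons, List.not_mem_nil, or_false] at hq
    rcases hq with rfl | rfl | rfl | rfl
    · norm_num
    · norm_num
    · norm_num
    · norm_num
  · decide +kernel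

lemma prime_1 : Nat.Prime 57003277 := by
  apply pratt 57003277 2 27 [2, 2, 3, 11, 277, 1559]
  · intro q hq
    simp only [List.mem_cons, List.not_mem_nil, or_false] at hq
    rcases hq with rfl | rfl | rfl | rfl | rfl | rfl
    · norm_num
    · norm_num
    · norm_num
    · norm_num
    · norm_num
    · norm_num
  · decide +kernel

lemma prime_2 : Nat.Prime 9462543983 := by
  apply pratt 9462543983 5 35 [2, 83, 57003277]
  · intro q hq
    simp only [List.mem_cons, List.not_mem_nil, or_false] at hq
    rcases hq with rfl | rfl | rfl
    · norm_num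
    · norm_num
    · exact prime_1
  · decide +kernel

lemma prime_3 : Nat.Prime 99999999999999999999999999899 := by
  apply pratt 99999999999999999999999999899 2 98 [2, 5051, 912491, 1146452683, 9462543983]
  · intro q hq
    simp only [List.mem_cons, List.not_mem_nil, or_false] at hq
    rcases hq with rfl | rfl | rfl | rfl | rfl
    · norm_num
    · norm_num
    · norm_num
    · exact prime_0
    · exact prime_2
  · decide +kernel

lemma prime_4 : Nat.Prime 6774289 := by
  apply pratt 6774289 13 24 [2, 2, 2, 2, 3, 141131]
  · intro q hq
    simp only [List.mem_cons, List.not_mem_nil, or_false] at hq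
    rcases hq with rfl | rfl | rfl | rfl | rfl | rfl
    · norm_num
    · norm_num
    · norm_num
    · norm_num
    · norm_num
    · norm_num
  · decide +kernel

lemma prime_5 : Nat.Prime 1074377 := by
  apply pratt 1074377 3 22 [2, 2, 2, 23, 5839]
  · intro q hq
    simp only [List.mem_cons, List.not_mem_nil, or_false] at hq
    rcases hq with rfl | rfl | rfl | rfl | rfl
    · norm_num
    · norm_num
    · norm_num
    · norm_num
    · norm_num
  · decide +kernel

lemma prime_6 : Nat.Prime 70908883 := by
  apply pratt 70908883 2 28 [2, 3, 11, 1074377]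
  · intro q hq
    simp only [List.mem_cons, List.not_mem_nil, or_false] at hq
    rcases hq with rfl | rfl | rfl | rfl
    · norm_num
    · norm_num
    · norm_num
    · exact prime_5
  · decide +kernel

lemma prime_7 : Nat.Prime 64902308585044285054087 := by
  apply pratt 64902308585044285054087 3 77 [2, 3, 223, 100981, 6774289, 70908883]
  · intro q hq
    simp only [List.mem_cons, List.not_mem_nil, or_false] at hq
    rcases hq with rfl | rfl | rfl | rfl | rfl | rfl
    · norm_num
    · norm_num
    · norm_num
    · norm_num
    · exact prime_4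
    · exact prime_6
  · decide +kernel

lemma prime_8 : Nat.Prime 241573142393627673576957439049 := by
  apply pratt 241573142393627673576957439049 3 99 [2, 2, 2, 71, 6553, 64902308585044285054087]
  · intro q hq
    simp only [List.mem_cons, List.not_mem_nil, or_false] at hq
    rcases hq with rfl | rfl | rfl | rfl | rfl | rfl
    · norm_num
    · norm_num
    · norm_num
    · norm_num
    · norm_num
    · exact prime_7
  · decide +kernel

lemma prime_9 : Nat.Prime 9299909 := by
  apply pratt 9299909 2 25 [2, 2, 73, 31849]
  · intro q hq
    simp only [List.mem_cons, List.not_mem_nil, or_false] at hq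
    rcases hq with rfl | rfl | rfl | rfl
    · norm_num
    · norm_num
    · norm_num
    · norm_num
  · decide +kernel

lemma prime_10 : Nat.Prime 10669097 := by
  apply pratt 10669097 3 25 [2, 2, 2, 73, 18269]
  · intro q hq
    simp only [List.mem_cons, List.not_mem_nil, or_false] at hq
    rcases hq with rfl | rfl | rfl | rfl | rfl
    · norm_num
    · norm_num
    · norm_num
    · norm_num
    · norm_num
  · decide +kernel

lemma prime_11 : Nat.Prime 64014583 := by
  apply pratt 64014583 5 27 [2, 3, 10669097]
  · intro q hq
    simp only [List.mem_cons, List.not_mem_nil, or_false] at hq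
    rcases hq with rfl | rfl | rfl
    · norm_num
    · norm_num
    · exact prime_10
  · decide +kernel

lemma prime_12 : Nat.Prime 22159079363739421 := by
  apply pratt 22159079363739421 2 56 [2, 2, 3, 3, 3, 3, 5, 157, 1361, 64014583]
  · intro q hq
    simp only [List.mem_cons, List.not_mem_nil, or_false] at hq
    rcases hq with rfl | rfl | rfl | rfl | rfl | rfl | rfl | rfl | rfl | rfl
    · norm_num
    · norm_num
    · norm_num
    · norm_num
    · norm_num
    · norm_num
    · norm_num
    · norm_num
    · norm_num
    · exact prime_11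
  · decide +kernel

lemma prime_13 : Nat.Prime 5900253744024168150829 := by
  apply pratt 5900253744024168150829 2 74 [2, 2, 3, 22189, 22159079363739421]
  · intro q hq
    simp only [List.mem_cons, List.not_mem_nil, or_false] at hq
    rcases hq with rfl | rfl | rfl | rfl | rfl
    · norm_num
    · norm_num
    · norm_num
    · norm_num
    · exact prime_12
  · decide +kernel

lemma prime_14 : Nat.Prime 45994811347886846310221728895223034301839 := by
  apply pratt 45994811347886846310221728895223034301839 6 137 [2, 3, 3, 3, 13, 71, 79, 212881, 9299909, 5900253744024168150829]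
  · intro q hq
    simp only [List.mem_cons, List.not_mem_nil, or_false] at hq
    rcases hq with rfl | rfl | rfl | rfl | rfl | rfl | rfl | rfl | rfl | rfl
    · norm_num
    · norm_num
    · norm_num
    · norm_num
    · norm_num
    · norm_num
    · norm_num
    · norm_num
    · exact prime_9
    · exact prime_13
  · decide +kernel

/-- the first prime factor of `(10 ^ 71 - 1) / 9` -/
def P1 : ℕ := 241573142393627673576957439049
/-- the second prime factor of `(10 ^ 71 - 1) / 9` -/
def P2 : ℕ := 45994811347886846310221728895223034301839

lemma P1_prime : P1.Prime := prime_8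
lemma P2_prime : P2.Prime := prime_14

lemma checks : [2, 3, 5, P1, P2].all (fun q => qCheck (10 ^ 143 - 11) 2 1 4 480 q) = true := by
  decide +kernel

lemma N_prime : Nat.Prime (10 ^ 143 - 11) := by
  have hch := checks
  rw [List.all_eq_true] at hch
  apply morrison (10 ^ 143 - 11) 2 1 4 480 (2 * 5 * 3 ^ 2 * P1 * P2)
  · norm_num
  · norm_num
  · norm_num
  · norm_num
  · norm_num
  · decide +kernel
  · intro ε h
    have h2 := h 2 1 (by norm_num) (by norm_num) (by norm_num) (hch 2 (by simp))
    have h3 := h 3 2 (by norm_num) (by norm_num) (by norm_num) (hch 3 (by simp))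
    have h5 := h 5 1 (by norm_num) (by norm_num) (by norm_num) (hch 5 (by simp))
    have hp1 := h P1 1 P1_prime (by norm_num [P1]) (by norm_num [P1]) (hch P1 (by simp))
    have hp2 := h P2 1 P2_prime (by norm_num [P2]) (by norm_num [P2]) (hch P2 (by simp))
    rw [pow_one] at h2 h5 hp1 hp2
    have e1 : 2 * 5 ∣ ε := Nat.Coprime.mul_dvd_of_dvd_of_dvd (by norm_num) h2 h5
    have e2 : 2 * 5 * 3 ^ 2 ∣ ε := Nat.Coprime.mul_dvd_of_dvd_of_dvd (by norm_num) e1 h3
    have e3 : 2 * 5 * 3 ^ 2 * P1 ∣ ε :=
      Nat.Coprime.mul_dvd_of_dvd_of_dvd (by norm_num [P1]) e2 hp1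
    exact Nat.Coprime.mul_dvd_of_dvd_of_dvd (by norm_num [P1, P2]) e3 hp2
  · norm_num [P1, P2]

lemma comp143 : (List.range' 2 141).all (fun j => fermat 480 (10 ^ 143 - 1 - 10 ^ j)) = true := by
  decide +kernel

lemma comp29 : (List.range' 3 26).all (fun j => fermat 100 (10 ^ 29 - 1 - 10 ^ j)) = true := by
  decide +kernel

lemma ds143 : ds (10 ^ 143 - 1 - 10 ^ 1) + 1 = 9 * 143 := by
  norm_num [ds]

lemma ds29 : ds (10 ^ 29 - 1 - 10 ^ 2) + 1 = 9 * 29 := by
  norm_num [ds]

/-- the least prime with digit sum `1286` is `10 ^ 143 - 11` -/
theorem rho_1286 : IsRho 1286 (10 ^ 143 - 11) := by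
  have e : (10 ^ 143 - 1 - 10 ^ 1 : ℕ) = 10 ^ 143 - 11 := by simp
  have h := isRho_of 143 1 (by norm_num) (by rw [e]; exact N_prime) ds143 (by
    intro j h1 h2
    have hc := comp143
    rw [List.all_eq_true] at hc
    exact not_prime_of_fermat (hc j (by rw [List.mem_range'_1]; omega)))
  rw [e] at h
  exact h

/-- the least prime with digit sum `260` is `10 ^ 29 - 101` -/
theorem rho_260 : IsRho 260 (10 ^ 29 - 101) := by
  have e : (10 ^ 29 - 1 - 10 ^ 2 : ℕ) = 99999999999999999999999999899 := by simp
  have h := isRho_of 29 2 (by norm_num) (by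
    rw [e]
    exact prime_3) ds29 (by
    intro j h1 h2
    have hc := comp29
    rw [List.all_eq_true] at hc
    exact not_prime_of_fermat (hc j (by rw [List.mem_range'_1]; omega)))
  have e2 : (10 ^ 29 - 1 - 10 ^ 2 : ℕ) = 10 ^ 29 - 101 := by simp
  rw [e2] at h
  exact h

end Pool.Agent.T88R
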